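import Pool.Agent.H48.Bh.Defs

/-!
The structured block (idea of helper18): a `B_h`-set with `p` elements in `[0, 2 (h + 2) p^h]` such that sums of
`k < h` elements, which are different as multisets, differ by more than `p - 2`.
-/

set_option autoImplicit false

namespace H48.Bh

open Polynomial

theorem geo (p h : ℕ) (hp : 1 ≤ p) : (p - 1) * (∑ i ∈ Finset.range h, p ^ i) + 1 = p ^ h := by
  obtain ⟨m, rfl⟩ : ∃ m, p = m + 1 := ⟨p - 1, by omega⟩
  rw [Nat.add_sub_cancel]
  induction h with
  | zero => simp
  | succ h ih =>
    rw [Finset.sum_range_succ, mul_add, pow_succ]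
    have : (m + 1) ^ h * (m + 1) = m * (m + 1) ^ h + (m + 1) ^ h := by ring
    rw [this]
    omega

/-- elements of a finite field of characteristic `p` with `g ^ p = g` are in the prime field -/
theorem exists_zmod {p : ℕ} [Fact p.Prime] {K : Type*} [Field K] [Algebra (ZMod p) K]
    (g : K) (hg : g ^ p = g) : ∃ c : ZMod p, algebraMap (ZMod p) K c = g := by
  haveI : CharP K p := charP_of_injective_algebraMap (algebraMap (ZMod p) K).injective p
  have h1 : g ∈ (⊥ : Subfield K) := (Subfield.mem_bot_iff_pow_eq_self K p).2 hg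
  rw [← ZMod.fieldRange_castHom_eq_bot p] at h1
  obtain ⟨c, hc⟩ := h1
  refine ⟨c, ?_⟩
  rw [← hc]
  congr 1
  exact RingHom.ext_zmod _ _

theorem eq_of_prod_eq {F : Type*} [Field F] {s t : Multiset F}
    (h : (s.map (fun a => X - C a)).prod = (t.map (fun a => X - C a)).prod) : s = t := by
  rw [← roots_multiset_prod_X_sub_C s, h, roots_multiset_prod_X_sub_C t]

theorem natDegree_P {F : Type*} [Field F] (s : Multiset F) :
    ((s.map (fun a => X - C a)).prod).natDegree = s.card := natDegree_multiset_prod_X_sub_C_eq_card s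

theorem monic_P {F : Type*} [Field F] (s : Multiset F) :
    ((s.map (fun a => X - C a)).prod).Monic := monic_multiset_prod_of_monic _ _
      (fun a _ => monic_X_sub_C a)

/-- two products of linear polynomials whose values at `x` are proportional are equal -/
theorem key_poly {p : ℕ} [Fact p.Prime] {K : Type*} [Field K] [Algebra (ZMod p) K] {h : ℕ} (x : K)
    (hx : ∀ f : (ZMod p)[X], f.natDegree < h → aeval x f = 0 → f = 0) (hh : 0 < h)
    (s t : Multiset (ZMod p)) (hst : s.card = t.card) (hs : s.card ≤ h) (c : ZMod p)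
    (hc : s.card < h ∨ c = 1)
    (heq : aeval x ((t.map (fun a => X - C a)).prod) =
      algebraMap (ZMod p) K c * aeval x ((s.map (fun a => X - C a)).prod)) : s = t := by
  have h0 : aeval x ((t.map (fun a => X - C a)).prod - C c * (s.map (fun a => X - C a)).prod) = 0 := by
    rw [map_sub, map_mul, heq, aeval_C, sub_self]
  have hdeg : ((t.map (fun a => X - C a)).prod - C c * (s.map (fun a => X - C a)).prod).natDegree < h ∨
      (t.map (fun a => X - C a)).prod - C c * (s.map (fun a => X - C a)).prod = 0 := by
    rcases hc with hc | hc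
    · left
      refine lt_of_le_of_lt (natDegree_sub_le _ _) (max_lt ?_ ?_)
      · rw [natDegree_P]; omega
      · refine lt_of_le_of_lt (natDegree_C_mul_le _ _) ?_
        rw [natDegree_P]; exact hc
    · subst hc
      rw [C_1, one_mul]
      rcases lt_or_eq_of_le hs with hlt | hlt
      · left
        refine lt_of_le_of_lt (natDegree_sub_le _ _) (max_lt ?_ ?_)
        · rw [natDegree_P]; omega
        · rw [natDegree_P]; exact hlt
      · by_cases hz : (t.map (fun a => X - C a)).prod - (s.map (fun a => X - C a)).prod = 0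
        · exact Or.inr hz
        · left
          have h1 : ((t.map (fun a => X - C a)).prod - (s.map (fun a => X - C a)).prod).degree <
              ((t.map (fun a => X - C a)).prod).degree := by
            apply degree_sub_lt_left
            · rw [degree_eq_natDegree (monic_P t).ne_zero, degree_eq_natDegree (monic_P s).ne_zero,
                natDegree_P, natDegree_P, hst]
            · exact (monic_P t).ne_zero
            · rw [(monic_P t).leadingCoeff, (monic_P s).leadingCoeff]
          have h2 := natDegree_lt_natDegree hz h1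
          rw [natDegree_P] at h2
          omega
  have hz : (t.map (fun a => X - C a)).prod - C c * (s.map (fun a => X - C a)).prod = 0 := by
    rcases hdeg with hdeg | hdeg
    · exact hx _ hdeg h0
    · exact hdeg
  have hz' : (t.map (fun a => X - C a)).prod = C c * (s.map (fun a => X - C a)).prod := sub_eq_zero.1 hz
  have hc1 : c = 1 := by
    have h1 : ((t.map (fun a => X - C a)).prod).leadingCoeff = 1 := (monic_P t).leadingCoeff
    rw [hz', leadingCoeff_mul, leadingCoeff_C, (monic_P s).leadingCoeff, mul_one] at h1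
    exact h1
  rw [hc1, C_1, one_mul] at hz'
  exact (eq_of_prod_eq hz').symm

theorem prod_log {p : ℕ} {K : Type*} [Field K] [Algebra (ZMod p) K] (x g : K)
    (n : ZMod p → ℕ) (hn : ∀ a, g ^ n a = x - algebraMap (ZMod p) K a) (s : Multiset (ZMod p)) :
    aeval x ((s.map (fun a => X - C a)).prod) = g ^ (s.map n).sum := by
  induction s using Multiset.induction_on with
  | empty => simp
  | cons a s ih =>
    rw [Multiset.map_cons, Multiset.prod_cons, map_mul, ih, Multiset.map_cons, Multiset.sum_cons,
      pow_add, hn]
    simp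

theorem block (h p : ℕ) [Fact p.Prime] (hh : 2 ≤ h) :
    ∃ b : ZMod p → ℕ, (∀ a, b a ≤ 2 * (h + 2) * p ^ h) ∧
      ∀ s t : Multiset (ZMod p), s.card = t.card → s.card ≤ h →
        (s.map b).sum ≤ (t.map b).sum → (t.map b).sum + 2 ≤ (s.map b).sum + p →
        (s.card < h ∨ (s.map b).sum = (t.map b).sum) → s = t := by
  classical
  have hp2 : 2 ≤ p := (Fact.out : p.Prime).two_le
  have hh0 : h ≠ 0 := by omega
  let K := GaloisField p h
  have hfin : Module.finrank (ZMod p) K = h := GaloisField.finrank p hh0
  have hcard : Nat.card K = p ^ h := GaloisField.card p h hh0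
  obtain ⟨x, hx⟩ := Field.exists_primitive_element (ZMod p) K
  rw [Field.primitive_element_iff_minpoly_natDegree_eq, hfin] at hx
  have hx' : ∀ f : (ZMod p)[X], f.natDegree < h → aeval x f = 0 → f = 0 := by
    intro f hf h0
    by_contra hne
    have h1 := minpoly.degree_le_of_ne_zero (ZMod p) x hne h0
    have h2 := natDegree_le_natDegree h1
    omega
  obtain ⟨g, hg⟩ := IsCyclic.exists_monoid_generator (α := Kˣ)
  have hord : orderOf g = p ^ h - 1 := by
    have h1 : orderOf g = Nat.card Kˣ := by
      apply orderOf_eq_card_of_forall_mem_powers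
      exact hg
    rw [h1, Nat.card_units, hcard]
  obtain ⟨r, hr⟩ : ∃ r, r = ∑ i ∈ Finset.range h, p ^ i := ⟨_, rfl⟩
  have hgeo : (p - 1) * r + 1 = p ^ h := by rw [hr]; exact geo p h (by omega)
  have hord' : orderOf g = (p - 1) * r := by omega
  have hne : ∀ a : ZMod p, x - algebraMap (ZMod p) K a ≠ 0 := by
    intro a h0
    have h1 := hx' (X - C a) (by rw [natDegree_X_sub_C]; omega) (by simpa using h0)
    exact X_sub_C_ne_zero a h1
  have hordpos : 0 < orderOf g := orderOf_pos g
  have hlog : ∀ a : ZMod p, ∃ n : ℕ, n < (p - 1) * r ∧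
      ((g : K)) ^ n = x - algebraMap (ZMod p) K a := by
    intro a
    obtain ⟨m, hm⟩ := hg (Units.mk0 _ (hne a))
    refine ⟨m % orderOf g, by rw [← hord']; exact Nat.mod_lt _ hordpos, ?_⟩
    have h1 : g ^ (m % orderOf g) = Units.mk0 _ (hne a) := by
      rw [pow_mod_orderOf]; exact hm
    have h2 := congrArg (fun y : Kˣ => (y : K)) h1
    simp only [Units.val_pow_eq_pow_val, Units.val_mk0] at h2
    exact h2
  choose n hn1 hn2 using hlog
  have hrpos : 0 < r := by
    rcases Nat.eq_zero_or_pos r with h0 | h0
    · rw [h0, mul_zero] at hord'; omega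
    · exact h0
  have hu : ∀ a, n a / r ≤ p - 2 := by
    intro a
    have h1 : n a / r < p - 1 := Nat.div_lt_of_lt_mul (by rw [mul_comm]; exact hn1 a)
    omega
  have hv : ∀ a, n a % r < r := fun a => Nat.mod_lt _ hrpos
  have hpr : p * r ≤ 2 * p ^ h := by
    have h1 : p ≤ 2 * (p - 1) := by omega
    have h2 : p * r ≤ 2 * (p - 1) * r := Nat.mul_le_mul_right r h1
    have h3 : 2 * (p - 1) * r = 2 * ((p - 1) * r) := by ring
    omega
  refine ⟨fun a => n a / r + (h + 2) * p * (n a % r), ?_, ?_⟩
  · intro a
    have h1 : n a % r + 1 ≤ r := hv a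
    have h2 : (h + 2) * p * (n a % r + 1) ≤ (h + 2) * p * r := Nat.mul_le_mul_left _ h1
    have h3 : n a / r ≤ (h + 2) * p := by
      have h4 := hu a
      have h5 : 1 * p ≤ (h + 2) * p := Nat.mul_le_mul_right p (by omega)
      omega
    have h4 : (h + 2) * (p * r) ≤ (h + 2) * (2 * p ^ h) := Nat.mul_le_mul_left _ hpr
    have h5 : (h + 2) * p * r = (h + 2) * (p * r) := by ring
    have h6 : 2 * (h + 2) * p ^ h = (h + 2) * (2 * p ^ h) := by ring
    have h7 : (h + 2) * p * (n a % r + 1) = (h + 2) * p * (n a % r) + (h + 2) * p := by ring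
    show n a / r + (h + 2) * p * (n a % r) ≤ 2 * (h + 2) * p ^ h
    omega
  · intro s t hst hsh hle hle2 hor
    have hS : ∀ s : Multiset (ZMod p), (s.map (fun a => n a / r + (h + 2) * p * (n a % r))).sum =
        (s.map (fun a => n a / r)).sum + (h + 2) * p * (s.map (fun a => n a % r)).sum := by
      intro s
      rw [Multiset.sum_map_add, Multiset.sum_map_mul_left]
    have hN : ∀ s : Multiset (ZMod p), (s.map n).sum =
        (s.map (fun a => n a % r)).sum + r * (s.map (fun a => n a / r)).sum := by
      intro s
      rw [← Multiset.sum_map_mul_left, ← Multiset.sum_map_add]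
      congr 1
      apply Multiset.map_congr rfl
      intro a _
      exact (Nat.mod_add_div _ _).symm
    have hU : ∀ s : Multiset (ZMod p), s.card ≤ h →
        (s.map (fun a => n a / r)).sum ≤ h * (p - 2) := by
      intro s hs
      have h1 := Multiset.sum_le_card_nsmul (s.map (fun a => n a / r)) (p - 2) (by
        intro y hy
        obtain ⟨a, _, rfl⟩ := Multiset.mem_map.1 hy
        exact hu a)
      rw [Multiset.card_map, smul_eq_mul] at h1
      exact h1.trans (Nat.mul_le_mul_right _ hs)
    have hUs := hU s hsh
    have hUt := hU t (by omega)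
    rw [hS, hS] at hle hle2 hor
    generalize hUS : (s.map (fun a => n a / r)).sum = Us at *
    generalize hUT : (t.map (fun a => n a / r)).sum = Ut at *
    generalize hVS : (s.map (fun a => n a % r)).sum = Vs at *
    generalize hVT : (t.map (fun a => n a % r)).sum = Vt at *
    have hW : h * (p - 2) + (p - 2) < (h + 2) * p := by
      have h1 : h * (p - 2) ≤ h * p := Nat.mul_le_mul_left _ (by omega)
      have h2 : (h + 2) * p = h * p + 2 * p := by ring
      omega
    have hVeq : Vs = Vt := by
      rcases lt_trichotomy Vs Vt with hlt | heq | hgt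
      · exfalso
        have h1 : (h + 2) * p * (Vs + 1) ≤ (h + 2) * p * Vt := Nat.mul_le_mul_left _ hlt
        have h2 : (h + 2) * p * (Vs + 1) = (h + 2) * p * Vs + (h + 2) * p := by ring
        omega
      · exact heq
      · exfalso
        have h1 : (h + 2) * p * (Vt + 1) ≤ (h + 2) * p * Vs := Nat.mul_le_mul_left _ hgt
        have h2 : (h + 2) * p * (Vt + 1) = (h + 2) * p * Vt + (h + 2) * p := by ring
        omega
    subst hVeq
    obtain ⟨δ, hδ⟩ : ∃ δ, Ut = Us + δ := ⟨Ut - Us, by omega⟩
    have hNst : (t.map n).sum = r * δ + (s.map n).sum := by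
      rw [hN, hN, hUS, hUT, hVS, hVT, hδ]
      ring
    have hgp : ((g : K) ^ (r * δ)) ^ p = (g : K) ^ (r * δ) := by
      have h1 : (g : K) ^ ((p - 1) * r) = 1 := by
        have h2 : g ^ orderOf g = 1 := pow_orderOf_eq_one g
        rw [hord'] at h2
        have h3 := congrArg (fun y : Kˣ => (y : K)) h2
        simpa using h3
      have h4 : r * δ * p = (p - 1) * r * δ + r * δ := by
        obtain ⟨m, hm⟩ : ∃ m, p = m + 1 := ⟨p - 1, by omega⟩
        rw [hm, Nat.add_sub_cancel]
        ring
      rw [← pow_mul, h4, pow_add, pow_mul, h1, one_pow, one_mul]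
    obtain ⟨c, hc⟩ := exists_zmod (p := p) ((g : K) ^ (r * δ)) hgp
    have heq : aeval x ((t.map (fun a => X - C a)).prod) =
        algebraMap (ZMod p) K c * aeval x ((s.map (fun a => X - C a)).prod) := by
      rw [prod_log x (g : K) n hn2, prod_log x (g : K) n hn2, hc, hNst, pow_add]
    refine key_poly x hx' (by omega) s t hst hsh c ?_ heq
    rcases hor with hor | hor
    · exact Or.inl hor
    · right
      have hδ0 : δ = 0 := by omega
      rw [hδ0, mul_zero, pow_zero] at hc
      exact (algebraMap (ZMod p) K).injective (by rw [hc, map_one])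

end H48.Bh
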