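import Mathlib

/-!
Infinite `B_h`-sets with `limsup A(N) / N^(1/h) > 0` (problem `MP_a62d70_co`): definition.
-/

set_option autoImplicit false

namespace H48.Bh

/-- `A` is a `B_h`-set: all sums of `h` elements of `A` (with repetition) are distinct up to the order of the
summands. -/
def IsBh (h : ℕ) (A : Set ℕ) : Prop :=
  ∀ s t : Multiset ℕ, (∀ x ∈ s, x ∈ A) → (∀ x ∈ t, x ∈ A) → s.card = h → t.card = h →
    s.sum = t.sum → s = t

theorem IsBh.subset {h : ℕ} {A B : Set ℕ} (hB : IsBh h B) (hAB : A ⊆ B) : IsBh h A :=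
  fun s t hs ht => hB s t (fun x hx => hAB (hs x hx)) (fun x hx => hAB (ht x hx))

/-- a nonempty `B_h`-set is a `B_k`-set for `k ≤ h` -/
theorem IsBh.le {h k : ℕ} {A : Set ℕ} (hA : IsBh h A) (hk : k ≤ h) (hne : A.Nonempty) :
    IsBh k A := by
  intro s t hs ht hsc htc hsum
  obtain ⟨a, ha⟩ := hne
  have h1 := hA (s + Multiset.replicate (h - k) a) (t + Multiset.replicate (h - k) a)
    (by
      intro x hx
      rcases Multiset.mem_add.1 hx with hx | hx
      · exact hs x hx
      · rw [Multiset.eq_of_mem_replicate hx]; exact ha)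
    (by
      intro x hx
      rcases Multiset.mem_add.1 hx with hx | hx
      · exact ht x hx
      · rw [Multiset.eq_of_mem_replicate hx]; exact ha)
    (by rw [Multiset.card_add, Multiset.card_replicate, hsc]; omega)
    (by rw [Multiset.card_add, Multiset.card_replicate, htc]; omega)
    (by rw [Multiset.sum_add, Multiset.sum_add, hsum])
  exact add_right_cancel h1

end H48.Bh
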