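import Pool.Agent.H48.Bh.Step

/-!
JOB BH-INF. The infinite set.

PROOF. Let `K = 5 h (h + 2)`. Build by recursion (choice) finite sets `S n` and numbers `M n ≥ 1` with
`S 0 = {1}`, `M 0 = 1` (`IsBh h {1}`: all multisets in `{1}` with `h` elements are `replicate h 1`), and, with `p n` from `step` for `(S n, M n)`,
`S (n+1) = S'`, `M (n+1) = K * (p n)^h`. (E.g. a sequence in the subtype of pairs `(S, M)` with the hypotheses of `step`.)
So: `S n ⊆ S (n+1)`, `S n ⊆ [1, M n]`, `h M n + 2 ≤ p n ≤ 2 (h M n + 2) ≤ 4 h M n + ...` (`≤ 6 h M n` is enough), `p n ≤ (S (n+1)).card`, `M n < M (n+1)`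
(`M n < p n ≤ M (n+1)`), hence `M n → ∞`, `M n ≥ n`.
`A = ⋃ n, S n`. `IsBh h A`: the elements of two finite multisets of `A` lie in one `S n` (monotone; induction on the multiset or
`Finset` sup of indices). Infinite: `(S (n+1)).card ≥ p n > M n ≥ n`. 
Counting: `A ∩ Set.Icc 1 N ⊇ S n` when `M n ≤ N`, so `(A ∩ Set.Icc 1 N).ncard ≥ (S n).card` (the set is finite).
(1) for `N = M (n+1)`: count `≥ p n = (M (n+1) / K)^(1/h)`, so `c ≤ K^(-1/h)` works; frequently: `Filter.frequently_atTop`, `M (n+1) ≥ n`.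
(2) for `N ≥ 1 = M 0` let `n` be maximal with `M n ≤ N` (`Nat.find` or `Nat.findGreatest`), so `N < M (n+1) = K (p n)^h ≤ K (6 h M n)^h`. If
`n = m + 1`: count `≥ p m = (M n / K)^(1/h)`, and `M n > N^(1/h) / (6 h K^(1/h))`; so count `≥ c N^(1/h^2)` with
`c = (6 h K^(1/h) K)^(-1/h)`. If `n = 0`: `N < M 1 ≤ K (6 h)^h`, count `≥ 1 ≥ N^(1/h^2) / (K (6 h)^h)^(1/h^2)`. Take
`c` = the minimum of the three constants (or a simpler smaller constant such as `1 / (K (6 h)^h)`: all exponents are `≤ 1` and the bases `≥ 1`).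
-/

set_option autoImplicit false

namespace H48.Bh

/-- a stage of the construction -/
structure Stage (h : ℕ) where
  /-- the finite set -/
  S : Finset ℕ
  /-- a bound for its elements -/
  M : ℕ
  hM : 1 ≤ M
  hS : ∀ x ∈ S, 1 ≤ x ∧ x ≤ M
  hne : S.Nonempty
  hB : IsBh h (S : Set ℕ)

theorem Stage.exists_next {h : ℕ} (hh : 2 ≤ h) (st : Stage h) :
    ∃ (st' : Stage h) (p : ℕ), h * st.M + 2 ≤ p ∧ p ≤ 2 * (h * st.M + 2) ∧ st.S ⊆ st'.S ∧
      st'.M = 5 * h * (h + 2) * p ^ h ∧ p ≤ st'.S.card := by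
  obtain ⟨p, S', h1, h2, h3, h4, h5, h6⟩ := step h hh st.S st.M st.hM st.hS st.hne st.hB
  refine ⟨⟨S', 5 * h * (h + 2) * p ^ h, ?_, h5, st.hne.mono h3, h4⟩, p, h1, h2, h3, rfl, h6⟩
  have hp : 0 < p := by omega
  have : 0 < 5 * h * (h + 2) * p ^ h := by positivity
  omega

theorem rpow_bound (C N k e : ℕ) (hC : 1 ≤ C) (he : 1 ≤ e) (h : N ≤ C * k ^ e) :
    1 / (C : ℝ) * (N : ℝ) ^ (1 / (e : ℝ)) ≤ (k : ℝ) := by
  have hC0 : (0 : ℝ) < C := by exact_mod_cast hC
  have h1 : N ≤ (C * k) ^ e := by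
    rw [mul_pow]
    refine h.trans (Nat.mul_le_mul_right _ ?_)
    calc C = C ^ 1 := (pow_one C).symm
      _ ≤ C ^ e := Nat.pow_le_pow_right (by omega) he
  have h2 : (N : ℝ) ≤ ((C : ℝ) * k) ^ e := by exact_mod_cast h1
  have h3 : (N : ℝ) ^ (1 / (e : ℝ)) ≤ (C : ℝ) * k := by
    calc (N : ℝ) ^ (1 / (e : ℝ)) ≤ (((C : ℝ) * k) ^ e) ^ (1 / (e : ℝ)) :=
          Real.rpow_le_rpow (by positivity) h2 (by positivity)
      _ = (C : ℝ) * k := by
          rw [one_div, Real.pow_rpow_inv_natCast (by positivity) (by omega)]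
  calc 1 / (C : ℝ) * (N : ℝ) ^ (1 / (e : ℝ)) ≤ 1 / (C : ℝ) * ((C : ℝ) * k) :=
        mul_le_mul_of_nonneg_left h3 (by positivity)
    _ = k := by field_simp

theorem infinite_Bh (h : ℕ) (hh : 2 ≤ h) :
    ∃ A : Set ℕ, A.Infinite ∧ (∀ x ∈ A, 1 ≤ x) ∧ IsBh h A ∧ ∃ c : ℝ, 0 < c ∧
      (∃ᶠ N : ℕ in Filter.atTop,
        c * (N : ℝ) ^ ((1 : ℝ) / h) ≤ ((A ∩ Set.Icc 1 N).ncard : ℝ)) ∧
      ∀ N : ℕ, 1 ≤ N →
        c * (N : ℝ) ^ ((1 : ℝ) / (h : ℝ) ^ 2) ≤ ((A ∩ Set.Icc 1 N).ncard : ℝ) := by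
  classical
  have st0 : ∃ st : Stage h, st.M = 1 := by
    refine ⟨⟨{1}, 1, le_rfl, by simp, by simp, ?_⟩, rfl⟩
    intro s t hs ht hsc htc _
    have h1 : s = Multiset.replicate h 1 :=
      Multiset.eq_replicate.2 ⟨hsc, fun x hx => by simpa using hs x hx⟩
    have h2 : t = Multiset.replicate h 1 :=
      Multiset.eq_replicate.2 ⟨htc, fun x hx => by simpa using ht x hx⟩
    rw [h1, h2]
  obtain ⟨st0, hst0⟩ := st0
  choose nxt q hq1 hq2 hsub hMn hcard using fun st : Stage h => st.exists_next hh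
  set K : ℕ := 5 * h * (h + 2) with hK
  have hK1 : 1 ≤ K := by
    have : 0 < 5 * h * (h + 2) := by positivity
    omega
  let sq : ℕ → Stage h := fun n => Nat.rec st0 (fun _ st => nxt st) n
  have hsq0 : sq 0 = st0 := rfl
  have hsqs : ∀ n, sq (n + 1) = nxt (sq n) := fun n => rfl
  set p : ℕ → ℕ := fun n => q (sq n) with hp
  have hMs : ∀ n, (sq (n + 1)).M = K * p n ^ h := fun n => hMn (sq n)
  have hp1 : ∀ n, h * (sq n).M + 2 ≤ p n := fun n => hq1 (sq n)
  have hp2 : ∀ n, p n ≤ 6 * h * (sq n).M := by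
    intro n
    have h1 : p n ≤ 2 * (h * (sq n).M + 2) := hq2 (sq n)
    have h2 : 1 ≤ (sq n).M := (sq n).hM
    have h3 : 1 ≤ h * (sq n).M := Nat.mul_pos (by omega) h2
    have h4 : 6 * h * (sq n).M = 6 * (h * (sq n).M) := by ring
    omega
  have hpc : ∀ n, p n ≤ (sq (n + 1)).S.card := fun n => hcard (sq n)
  have hpM : ∀ n, p n ≤ (sq (n + 1)).M := by
    intro n
    have hp0 : 0 < p n := by have := hp1 n; omega
    rw [hMs]
    calc p n = 1 * p n ^ 1 := by ring
      _ ≤ K * p n ^ h := Nat.mul_le_mul hK1 (Nat.pow_le_pow_right hp0 (by omega))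
  have hMlt : ∀ n, (sq n).M < (sq (n + 1)).M := by
    intro n
    have h1 := hp1 n
    have h2 := hpM n
    have h3 : (sq n).M ≤ h * (sq n).M := Nat.le_mul_of_pos_left _ (by omega)
    omega
  have hMn' : ∀ n, n < (sq n).M := by
    intro n
    induction n with
    | zero => exact (sq 0).hM
    | succ n ih => have := hMlt n; omega
  have hmono : ∀ m n, m ≤ n → (sq m).S ⊆ (sq n).S := by
    intro m n hmn
    induction n, hmn using Nat.le_induction with
    | base => exact Finset.Subset.refl _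
    | succ n _ ih => exact ih.trans (hsub (sq n))
  set A : Set ℕ := ⋃ n, ((sq n).S : Set ℕ) with hA
  have hfin : ∀ N, (A ∩ Set.Icc 1 N).Finite := fun N =>
    (Set.finite_Icc 1 N).subset Set.inter_subset_right
  have hcount : ∀ n N, (sq n).M ≤ N → (sq n).S.card ≤ (A ∩ Set.Icc 1 N).ncard := by
    intro n N hN
    rw [← Set.ncard_coe_finset]
    refine Set.ncard_le_ncard ?_ (hfin N)
    intro x hx
    have := (sq n).hS x (Finset.mem_coe.1 hx)
    exact ⟨Set.mem_iUnion.2 ⟨n, hx⟩, this.1, this.2.trans hN⟩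
  -- the multisets
  have hms : ∀ s : Multiset ℕ, (∀ x ∈ s, x ∈ A) → ∃ n, ∀ x ∈ s, x ∈ (sq n).S := by
    intro s
    induction s using Multiset.induction_on with
    | empty => intro _; exact ⟨0, by simp⟩
    | cons a s ih =>
      intro hs
      obtain ⟨n, hn⟩ := ih fun x hx => hs x (Multiset.mem_cons_of_mem hx)
      obtain ⟨m, hm⟩ := Set.mem_iUnion.1 (hs a (Multiset.mem_cons_self a s))
      refine ⟨max m n, fun x hx => ?_⟩
      rcases Multiset.mem_cons.1 hx with rfl | hx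
      · exact hmono m _ (le_max_left _ _) (Finset.mem_coe.1 hm)
      · exact hmono n _ (le_max_right _ _) (hn x hx)
  set C : ℕ := K * (6 * h * K) ^ h with hC
  have h6 : 1 ≤ 6 * h * K := by
    have : 0 < 6 * h * K := Nat.mul_pos (by omega) hK1
    omega
  have hpow1 : 1 ≤ (6 * h * K) ^ h := Nat.one_le_pow _ _ h6
  have hKC : K ≤ C := Nat.le_mul_of_pos_right _ hpow1
  have hC1 : 1 ≤ C := hK1.trans hKC
  refine ⟨A, ?_, ?_, ?_, 1 / (C : ℝ), ?_, ?_, ?_⟩
  · -- infinite
    intro hf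
    have h1 : ∀ n, (sq n).S.card ≤ hf.toFinset.card := by
      intro n
      refine Finset.card_le_card fun x hx => ?_
      rw [Set.Finite.mem_toFinset]
      exact Set.mem_iUnion.2 ⟨n, Finset.mem_coe.2 hx⟩
    have h2 := h1 (hf.toFinset.card + 1)
    have h3 := hpc hf.toFinset.card
    have h4 := hp1 hf.toFinset.card
    have h5 := hMn' hf.toFinset.card
    have h7 : (sq hf.toFinset.card).M ≤ h * (sq hf.toFinset.card).M :=
      Nat.le_mul_of_pos_left _ (by omega)
    omega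
  · intro x hx
    obtain ⟨n, hn⟩ := Set.mem_iUnion.1 hx
    exact ((sq n).hS x (Finset.mem_coe.1 hn)).1
  · intro s t hs ht hsc htc hst
    obtain ⟨m, hm⟩ := hms s hs
    obtain ⟨n, hn⟩ := hms t ht
    exact (sq (max m n)).hB s t
      (fun x hx => Finset.mem_coe.2 (hmono m _ (le_max_left _ _) (hm x hx)))
      (fun x hx => Finset.mem_coe.2 (hmono n _ (le_max_right _ _) (hn x hx))) hsc htc hst
  · have : (0 : ℝ) < C := by exact_mod_cast hC1
    positivity
  · rw [Filter.frequently_atTop]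
    intro a
    refine ⟨(sq (a + 1)).M, ?_, ?_⟩
    · have := hMn' (a + 1); omega
    · refine rpow_bound C _ _ h hC1 (by omega) ?_
      rw [hMs a]
      exact Nat.mul_le_mul hKC (Nat.pow_le_pow_left ((hpc a).trans (hcount (a + 1) _ (by
        rw [hMs a]))) h)
  · intro N hN
    have hex : ∃ n, N < (sq n).M := ⟨N, hMn' N⟩
    have hfind := Nat.find_spec hex
    have hmin := fun m (hm : m < Nat.find hex) => Nat.find_min hex hm
    set n := Nat.find hex with hn
    have hcast : (h : ℝ) ^ 2 = ((h ^ 2 : ℕ) : ℝ) := by push_cast; ring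
    rw [hcast]
    refine rpow_bound C _ _ (h ^ 2) hC1 (Nat.one_le_pow _ _ (by omega)) ?_
    match hn' : n, hfind, hmin with
    | 0, hfind, _ =>
      exfalso
      rw [hsq0, hst0] at hfind
      omega
    | 1, hfind, hmin =>
      have h1 : 1 ≤ (A ∩ Set.Icc 1 N).ncard := by
        refine le_trans ?_ (hcount 0 N (by
          rw [hsq0, hst0]; exact hN))
        exact Finset.card_pos.2 (sq 0).hne
      have h2 : (sq 1).M ≤ C := by
        rw [show (1 : ℕ) = 0 + 1 from rfl, hMs 0, hC]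
        refine Nat.mul_le_mul_left _ (Nat.pow_le_pow_left ?_ h)
        have h3 := hp2 0
        rw [hsq0, hst0] at h3
        have h4 : 6 * h * 1 ≤ 6 * h * K := Nat.mul_le_mul_left _ hK1
        omega
      have h3 : C * 1 ≤ C * (A ∩ Set.Icc 1 N).ncard ^ h ^ 2 :=
        Nat.mul_le_mul_left _ (Nat.one_le_pow _ _ h1)
      omega
    | m + 2, hfind, hmin =>
      have h1 : (sq (m + 1)).M ≤ N := by
        have := hmin (m + 1) (by omega)
        omega
      have h2 := (hpc m).trans (hcount (m + 1) N h1)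
      have h3 : (sq (m + 2)).M ≤ C * p m ^ h ^ 2 := by
        rw [hMs (m + 1), hC]
        have h4 := hp2 (m + 1)
        rw [hMs m] at h4
        calc K * p (m + 1) ^ h ≤ K * (6 * h * (K * p m ^ h)) ^ h :=
              Nat.mul_le_mul_left _ (Nat.pow_le_pow_left h4 h)
          _ = K * (6 * h * K) ^ h * p m ^ h ^ 2 := by
              rw [show 6 * h * (K * p m ^ h) = (6 * h * K) * p m ^ h by ring, mul_pow,
                ← pow_mul, pow_two h]
              ring
      have h5 : C * p m ^ h ^ 2 ≤ C * (A ∩ Set.Icc 1 N).ncard ^ h ^ 2 :=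
        Nat.mul_le_mul_left _ (Nat.pow_le_pow_left h2 _)
      omega

end H48.Bh
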