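import Pool.Agent.H48.Bh.Block

/-!
JOB BH-STEP. Adding a block to a finite `B_h`-set.

PROOF. By Bertrand (`Nat.exists_prime_lt_and_le_two_mul`) there is a prime `p` with `h M + 2 ≤ p ≤ 2 (h M + 2)`
(apply it to `h M + 2`: `h M + 2 < p`). Let `b` be as in `block`, `B = 2 (h + 2) p^h`, `T = 3 h (h + 2) p^h`,
`S' = S ∪ Finset.univ.image (fun a : ZMod p => T + b a)`. `b` is injective: `block` with `s = {a}`, `t = {a'}` (`1 < h`; `p ≥ 2`), so
`S'.card ≥ p` (`ZMod.card`). All elements of `S'` are `≥ 1` (`T ≥ 1`) and `≤ T + B ≤ 5 h (h + 2) p^h` (`M ≤ p ≤ p^h`).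
`B_h`: let `X, Y` be multisets in `S'` with `h` elements and the same sum. Let `X0 = X.filter (· ≤ M)`,
`X1 = X.filter (¬ · ≤ M)`; `X = X0 + X1` (`Multiset.filter_add_not`), elements of `X0` are in `S` (as `T + b a > M`), elements of `X1` are of the form `T + b a`
(elements of `S` are `≤ M`), so `X1 = s.map (fun a => T + b a)` for a multiset `s` on `ZMod p` (induction on multisets, or `Multiset.map`
with a left inverse). Similarly `Y = Y0 + Y1`, `Y1 = t.map (fun a => T + b a)`. Let `i = s.card`, `j = t.card`. Sums: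
`X.sum = X0.sum + i T + (s.map b).sum`. If `i > j`: `X.sum ≥ i T ≥ j T + T`, `Y.sum ≤ (h - j) M + j T + j B ≤ j T + h (M + B) < j T + T`:
contradiction (`h (M + B) < T` because `M < p ≤ p^h`: `h (p^h + 2 (h+2) p^h) = h (2 h + 5) p^h < 3 h (h + 2) p^h` as `2 h + 5 < 3 h + 6`).
Similarly `i < j`. So `i = j`, and `X0.sum + (s.map b).sum = Y0.sum + (t.map b).sum`, `X0.card = Y0.card = h - i`, `X0.sum, Y0.sum ≤ h M ≤ p - 2`.
If `i = h` then `X0 = Y0 = 0` and the two sums are equal. WLOG `(s.map b).sum ≤ (t.map b).sum`; `block` gives `s = t`. Then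
`X0.sum = Y0.sum` and `IsBh.le` (for `h - i`) gives `X0 = Y0`. So `X = Y`.
-/

set_option autoImplicit false

namespace H48.Bh

theorem sum_le_card_mul (X : Multiset ℕ) (M : ℕ) (h : ∀ x ∈ X, x ≤ M) : X.sum ≤ X.card * M := by
  have := Multiset.sum_le_card_nsmul X M h
  simpa using this

theorem sum_map_add_const {α : Type*} (s : Multiset α) (T : ℕ) (b : α → ℕ) :
    (s.map fun a => T + b a).sum = s.card * T + (s.map b).sum := by
  induction s using Multiset.induction_on with
  | empty => simp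
  | cons a s ih => simp only [Multiset.map_cons, Multiset.sum_cons, Multiset.card_cons, ih]; ring

/-- splitting of a multiset of the union -/
theorem split {α : Type*} (S : Finset ℕ) (T : ℕ) (b : α → ℕ) (X : Multiset ℕ)
    (hX : ∀ x ∈ X, x ∈ S ∨ ∃ a, T + b a = x) :
    ∃ (X0 : Multiset ℕ) (s : Multiset α), X = X0 + s.map (fun a => T + b a) ∧
      (∀ x ∈ X0, x ∈ S) := by
  induction X using Multiset.induction_on with
  | empty => exact ⟨0, 0, by simp, by simp⟩
  | cons x X ih =>
    obtain ⟨X0, s, h1, h2⟩ := ih fun y hy => hX y (Multiset.mem_cons_of_mem hy)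
    rcases hX x (Multiset.mem_cons_self x X) with hx | ⟨a, ha⟩
    · refine ⟨x ::ₘ X0, s, by rw [h1, Multiset.cons_add], ?_⟩
      intro y hy
      rcases Multiset.mem_cons.1 hy with rfl | hy
      · exact hx
      · exact h2 y hy
    · refine ⟨X0, a ::ₘ s, ?_, h2⟩
      rw [Multiset.map_cons, ha, h1, Multiset.add_cons]

theorem step (h : ℕ) (hh : 2 ≤ h) (S : Finset ℕ) (M : ℕ) (hM : 1 ≤ M)
    (hS : ∀ x ∈ S, 1 ≤ x ∧ x ≤ M) (hne : S.Nonempty) (hB : IsBh h (S : Set ℕ)) :
    ∃ (p : ℕ) (S' : Finset ℕ), h * M + 2 ≤ p ∧ p ≤ 2 * (h * M + 2) ∧ S ⊆ S' ∧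
      IsBh h (S' : Set ℕ) ∧ (∀ x ∈ S', 1 ≤ x ∧ x ≤ 5 * h * (h + 2) * p ^ h) ∧ p ≤ S'.card := by
  obtain ⟨p, hp, hp1, hp2⟩ := Nat.exists_prime_lt_and_le_two_mul (h * M + 2) (by omega)
  have : Fact p.Prime := ⟨hp⟩
  obtain ⟨b, hb, hblock⟩ := block h p hh
  set P : ℕ := p ^ h with hP
  have hpP : p ≤ P := by
    calc p = p ^ 1 := (pow_one p).symm
      _ ≤ p ^ h := Nat.pow_le_pow_right hp.pos (by omega)
  have hMh : M ≤ h * M := Nat.le_mul_of_pos_left M (by omega)
  have hMP : M < P := by omega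
  set T : ℕ := 3 * h * (h + 2) * P with hT
  have hP0 : 0 < P := by omega
  have hTB : h * (M + 2 * (h + 2) * P) < T := by
    rw [hT]
    have h1 : M + 2 * (h + 2) * P < 3 * (h + 2) * P := by nlinarith
    calc h * (M + 2 * (h + 2) * P) < h * (3 * (h + 2) * P) :=
          Nat.mul_lt_mul_of_pos_left h1 (by omega)
      _ = 3 * h * (h + 2) * P := by ring
  have hMT : M < T := by
    have : M + 2 * (h + 2) * P ≤ h * (M + 2 * (h + 2) * P) :=
      Nat.le_mul_of_pos_left _ (by omega)
    omega
  have hinj : Function.Injective b := by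
    intro a a' haa
    have h1 := hblock {a} {a'} (by simp) (by simp; omega) (by simp [haa])
      (by simp [haa]; exact hp.two_le) (Or.inl (by simp; omega))
    exact Multiset.singleton_inj.1 h1
  have hbound : T + 2 * (h + 2) * P ≤ 5 * h * (h + 2) * P := by
    rw [hT]
    have : 2 * (h + 2) * P ≤ h * (2 * (h + 2) * P) := Nat.le_mul_of_pos_left _ (by omega)
    calc 3 * h * (h + 2) * P + 2 * (h + 2) * P ≤ 3 * h * (h + 2) * P + h * (2 * (h + 2) * P) := by
          omega
      _ = 5 * h * (h + 2) * P := by ring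
  classical
  have hsum : ∀ (X0 : Multiset ℕ) (s : Multiset (ZMod p)),
      (X0 + s.map (fun a => T + b a)).sum = X0.sum + (s.card * T + (s.map b).sum) := by
    intro X0 s
    rw [Multiset.sum_add, sum_map_add_const]
  have hbs : ∀ s : Multiset (ZMod p), (s.map b).sum ≤ s.card * (2 * (h + 2) * P) := by
    intro s
    have h1 := sum_le_card_mul (s.map b) (2 * (h + 2) * P) (by
      intro x hx
      obtain ⟨a, _, rfl⟩ := Multiset.mem_map.1 hx
      exact hb a)
    simpa using h1
  -- comparison of the numbers of large elements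
  have hcomp : ∀ (X0 Y0 : Multiset ℕ) (s t : Multiset (ZMod p)), (∀ x ∈ X0, x ∈ S) →
      (∀ x ∈ Y0, x ∈ S) → X0.card + s.card = h → Y0.card + t.card = h →
      X0.sum + (s.card * T + (s.map b).sum) = Y0.sum + (t.card * T + (t.map b).sum) →
      s.card ≤ t.card := by
    intro X0 Y0 s t hX0 hY0 hXc hYc he
    by_contra hlt
    push Not at hlt
    have h1 := sum_le_card_mul Y0 M fun x hx => (hS x (hY0 x hx)).2
    have h2 := hbs t
    have h3 : Y0.card * M ≤ h * M := Nat.mul_le_mul_right _ (by omega)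
    have h4 : t.card * (2 * (h + 2) * P) ≤ h * (2 * (h + 2) * P) :=
      Nat.mul_le_mul_right _ (by omega)
    have h5 : (t.card + 1) * T ≤ s.card * T := Nat.mul_le_mul_right _ hlt
    have h6 : h * (M + 2 * (h + 2) * P) = h * M + h * (2 * (h + 2) * P) := by ring
    have h7 : (t.card + 1) * T = t.card * T + T := by ring
    omega
  -- the main step
  have hmain : ∀ (X0 Y0 : Multiset ℕ) (s t : Multiset (ZMod p)), (∀ x ∈ X0, x ∈ S) →
      (∀ x ∈ Y0, x ∈ S) → X0.card + s.card = h → Y0.card + t.card = h →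
      X0.sum + (s.card * T + (s.map b).sum) = Y0.sum + (t.card * T + (t.map b).sum) →
      (s.map b).sum ≤ (t.map b).sum → X0 = Y0 ∧ s = t := by
    intro X0 Y0 s t hX0 hY0 hXc hYc he hle
    have hst : s.card = t.card := le_antisymm (hcomp X0 Y0 s t hX0 hY0 hXc hYc he)
      (hcomp Y0 X0 t s hY0 hX0 hYc hXc he.symm)
    rw [hst] at he
    have he' : X0.sum + (s.map b).sum = Y0.sum + (t.map b).sum := by omega
    have h1 := sum_le_card_mul X0 M fun x hx => (hS x (hX0 x hx)).2
    have h3 : X0.card * M ≤ h * M := Nat.mul_le_mul_right _ (by omega)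
    have hs : s = t := by
      refine hblock s t hst (by omega) hle (by omega) ?_
      by_cases hc : s.card < h
      · exact Or.inl hc
      · right
        have h0 : X0 = 0 := Multiset.card_eq_zero.1 (by omega)
        have h0' : Y0 = 0 := Multiset.card_eq_zero.1 (by omega)
        rw [h0, h0'] at he'
        simpa using he'
    refine ⟨?_, hs⟩
    rw [hs] at he'
    exact (hB.le (k := X0.card) (by omega) hne) X0 Y0 (fun x hx => hX0 x hx)
      (fun x hx => hY0 x hx) rfl (by omega) (by omega)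
  refine ⟨p, S ∪ Finset.univ.image (fun a : ZMod p => T + b a), by omega, hp2,
    Finset.subset_union_left, ?_, ?_, ?_⟩
  · intro X Y hX hY hXc hYc hXY
    have key : ∀ X : Multiset ℕ,
        (∀ x ∈ X, x ∈ ((S ∪ Finset.univ.image (fun a : ZMod p => T + b a) : Finset ℕ) : Set ℕ)) →
        ∃ (X0 : Multiset ℕ) (s : Multiset (ZMod p)), X = X0 + s.map (fun a => T + b a) ∧
          (∀ x ∈ X0, x ∈ S) := by
      intro X hX
      refine split S T b X ?_
      intro x hx
      have := hX x hx
      rw [Finset.mem_coe, Finset.mem_union, Finset.mem_image] at this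
      rcases this with h | ⟨a, _, h⟩
      · exact Or.inl h
      · exact Or.inr ⟨a, h⟩
    obtain ⟨X0, s, rfl, hX0⟩ := key X hX
    obtain ⟨Y0, t, rfl, hY0⟩ := key Y hY
    rw [Multiset.card_add, Multiset.card_map] at hXc hYc
    rw [hsum, hsum] at hXY
    rcases le_total (s.map b).sum (t.map b).sum with hle | hle
    · obtain ⟨h1, h2⟩ := hmain X0 Y0 s t hX0 hY0 hXc hYc hXY hle
      rw [h1, h2]
    · obtain ⟨h1, h2⟩ := hmain Y0 X0 t s hY0 hX0 hYc hXc hXY.symm hle
      rw [h1, h2]
  · intro x hx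
    rw [← hP]
    rw [Finset.mem_union, Finset.mem_image] at hx
    rcases hx with hx | ⟨a, _, rfl⟩
    · refine ⟨(hS x hx).1, ?_⟩
      have := (hS x hx).2
      omega
    · have := hb a
      refine ⟨by omega, by omega⟩
  · calc p = (Finset.univ.image (fun a : ZMod p => T + b a)).card := by
          rw [Finset.card_image_of_injective _ (fun a a' haa => hinj (by simpa using haa)),
            Finset.card_univ, ZMod.card]
      _ ≤ _ := Finset.card_le_card Finset.subset_union_right

end H48.Bh
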